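import Mathlib

namespace Pool.Agent.Results.MP_4da8b1_gt.Equality

abbrev V (n : ℕ) := EuclideanSpace ℝ (Fin n)

/-- `U` is a set of `k` unit vectors, `2 ≤ k ≤ n+1`, with a strictly positive combination equal to `0`. -/
def Balanced {n : ℕ} (U : Finset (V n)) : Prop :=
  2 ≤ U.card ∧ U.card ≤ n + 1 ∧ (∀ u ∈ U, ‖u‖ = 1) ∧
  ∃ l : V n → ℝ, (∀ u ∈ U, 0 < l u) ∧ ∑ u ∈ U, l u • u = 0

/-- `m` is the largest distance from `c` to a sum of one vector from each family. -/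
def IsM {n : ℕ} (U : Fin (n + 1) → Finset (V n)) (c : V n) (m : ℝ) : Prop :=
  IsGreatest {d | ∃ v : Fin (n + 1) → V n, (∀ i, v i ∈ U i) ∧ d = ‖∑ i, v i - c‖} m

noncomputable def u (s : ℝ) : Fin 5 → V 4 :=
  ![!₂[1, 0, 0, 0], !₂[-1 / 2, s / 2, 0, 0], !₂[-1 / 2, -s / 2, 0, 0], !₂[0, 0, 1, 0], !₂[0, 0, 0, 1]]

theorem nsq (x : V 4) : ‖x‖ ^ 2 = x 0 ^ 2 + x 1 ^ 2 + x 2 ^ 2 + x 3 ^ 2 := by
  rw [EuclideanSpace.real_norm_sq_eq, Fin.sum_univ_four]

theorem key (s : ℝ) (hs : s ^ 2 = 3) (e : Fin 5 → ℝ) : ‖∑ i, e i • u s i‖ ^ 2 =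
    (e 0 - e 1 / 2 - e 2 / 2) ^ 2 + 3 / 4 * (e 1 - e 2) ^ 2 + e 3 ^ 2 + e 4 ^ 2 := by
  rw [nsq]
  simp [Fin.sum_univ_five, u]
  linear_combination (e 1 - e 2) ^ 2 / 4 * hs

open Classical in
theorem result : ∃ (U : Fin (4 + 1) → Finset (V 4)) (c : V 4), (∀ i, Balanced (U i)) ∧
    IsM U c √(4 + 2) ∧
    ¬ ∃ w : Fin (4 + 1) → V 4, (∀ i, U i = {w i, -w i}) ∧
      ∃ δ : ℝ, ∀ i j, i ≠ j → dist (w i) (w j) = δ := by
  obtain ⟨s, hs⟩ : ∃ s : ℝ, s ^ 2 = 3 := ⟨√3, Real.sq_sqrt (by norm_num)⟩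
  have hn : ∀ i, ‖u s i‖ = 1 := by
    intro i
    rw [← sq_eq_sq₀ (norm_nonneg _) zero_le_one, nsq]
    fin_cases i <;> simp [u] <;> linear_combination hs / 4
  have hne : ∀ i, u s i ≠ -u s i := by
    intro i h
    have h2 : (2 : ℝ) • u s i = 0 := by rw [two_smul]; exact eq_neg_iff_add_eq_zero.1 h
    have h3 := hn i
    rw [(smul_eq_zero.1 h2).resolve_left two_ne_zero] at h3
    simp at h3
  have hsg : ∀ (i) (x : V 4), x ∈ ({u s i, -u s i} : Finset (V 4)) →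
      ∃ e : ℝ, e ^ 2 = 1 ∧ x = e • u s i := by
    intro i x hx
    rcases Finset.mem_insert.1 hx with rfl | hx
    · exact ⟨1, by norm_num, by simp⟩
    · exact ⟨-1, by norm_num, by simp [Finset.mem_singleton.1 hx]⟩
  refine ⟨fun i => {u s i, -u s i}, 0, fun i => ⟨?_, ?_, ?_, fun _ => 1, by simp, ?_⟩,
    ⟨⟨fun i => (![1, -1, -1, 1, 1] : Fin 5 → ℝ) i • u s i, fun i => ?_, ?_⟩, ?_⟩, ?_⟩
  · rw [Finset.card_pair (hne i)]
  · rw [Finset.card_pair (hne i)]; norm_num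
  · intro x hx
    rcases Finset.mem_insert.1 hx with rfl | hx
    · exact hn i
    · rw [Finset.mem_singleton.1 hx, norm_neg, hn]
  · rw [Finset.sum_pair (hne i)]; simp
  · fin_cases i <;> simp
  · rw [sub_zero, Real.sqrt_eq_iff_mul_self_eq (by norm_num) (norm_nonneg _), ← sq, key s hs]
    simp; norm_num
  · rintro _ ⟨v, hv, rfl⟩
    choose e he hve using fun i => hsg i _ (hv i)
    rw [sub_zero, funext hve]
    apply Real.le_sqrt_of_sq_le
    rw [key s hs]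
    have h0 := he 0
    have h1 := he 1
    have h2 := he 2
    rw [he 3, he 4]
    rcases sq_eq_one_iff.1 h0 with a | a <;> rcases sq_eq_one_iff.1 h1 with b | b <;>
      rcases sq_eq_one_iff.1 h2 with c | c <;> rw [a, b, c] <;> norm_num
  · rintro ⟨w, hw, δ, hδ⟩
    choose e he hwe using fun i => hsg i (w i) (by have := hw i; simp only at this; rw [this]; simp)
    have a := hδ 3 4 (by decide)
    have b := hδ 1 2 (by decide)
    rw [← a, dist_eq_norm, dist_eq_norm, ← sq_eq_sq₀ (norm_nonneg _) (norm_nonneg _), nsq, nsq,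
      hwe 1, hwe 2, hwe 3, hwe 4] at b
    simp [u] at b
    have h12 : e 1 * e 2 = 0 := by
      linear_combination b - (e 1 + e 2) ^ 2 / 4 * hs - he 1 - he 2 + he 3 + he 4
    have : (e 1 * e 2) ^ 2 = 1 := by rw [mul_pow, he 1, he 2]; norm_num
    rw [h12] at this
    norm_num at this

end Pool.Agent.Results.MP_4da8b1_gt.Equality
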